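import Pool.Agent.N15.AS.Defs

/-!
# Affine torus symmetries: sums of powers

Author: helper15.
-/

set_option autoImplicit false

open scoped Topology
open Filter Set

namespace Pool.Agent.N15.AS

open Pool.Agent.H718R2.G

variable {k : ℕ} (A : Matrix (Fin k) (Fin k) ℤ)

theorem lin_apply (X : V k) (i : Fin k) : lin A X i = ∑ j, (A i j : ℝ) * X j := rfl

theorem lin_add (X Y : V k) : lin A (X + Y) = lin A X + lin A Y := by
  ext i
  rw [PiLp.add_apply, lin_apply, lin_apply, lin_apply, ← Finset.sum_add_distrib]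
  exact Finset.sum_congr rfl fun j _ => by rw [PiLp.add_apply]; ring

theorem lin_cont : Continuous (lin A) := by
  have h : ∀ i, Continuous fun X : V k => ∑ j, (A i j : ℝ) * X j := by
    intro i
    exact continuous_finsetSum _ fun j _ => continuous_const.mul (by fun_prop)
  exact (PiLp.continuous_toLp 2 _).comp (continuous_pi h)

/-- `A X` sums -/
theorem lin_dot (m : Fin k → ℤ) (X : V k) :
    ∑ i, (m i : ℝ) * lin A X i = ∑ j, ((Matrix.vecMul m A j : ℤ) : ℝ) * X j := by
  simp only [lin_apply, Finset.mul_sum]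
  rw [Finset.sum_comm]
  refine Finset.sum_congr rfl fun j _ => ?_
  rw [Matrix.vecMul, dotProduct]
  push_cast
  rw [Finset.sum_mul]
  exact Finset.sum_congr rfl fun i _ => by ring

theorem lin_surj (hA : IsUnit A.det) (Y : V k) : ∃ X, lin A X = Y := by
  obtain ⟨C, h1⟩ : ∃ C : Matrix (Fin k) (Fin k) ℤ, A * C = 1 := ⟨A⁻¹, Matrix.mul_nonsing_inv A hA⟩
  refine ⟨lin C Y, ?_⟩
  ext i
  rw [lin_apply]
  simp only [lin_apply, Finset.mul_sum]
  rw [Finset.sum_comm]
  have h2 : ∀ l, ∑ j, (A i j : ℝ) * ((C j l : ℝ) * Y l) =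
      (if i = l then 1 else 0) * Y l := by
    intro l
    have h3 := congrFun (congrFun h1 i) l
    rw [Matrix.mul_apply, Matrix.one_apply] at h3
    have h4 : (∑ j, (A i j : ℝ) * (C j l : ℝ)) =
        if i = l then 1 else 0 := by
      have := congrArg (Int.cast : ℤ → ℝ) h3
      push_cast at this
      exact this
    rw [← h4, Finset.sum_mul]
    exact Finset.sum_congr rfl fun j _ => by ring
  simp only [h2]
  simp

/-- `Z_n X = A X + A² X + … + A^n X` -/
noncomputable def Zs : ℕ → V k → V k
  | 0, _ => 0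
  | n + 1, X => lin A (Zs n X + X)

theorem Zs_cont (n : ℕ) : Continuous (Zs A n) := by
  induction n with
  | zero => exact continuous_const
  | succ n ih => exact (lin_cont A).comp (ih.add continuous_id)

/-- `w_n m = m A + m A² + … + m A^n` -/
def ws : ℕ → (Fin k → ℤ) → (Fin k → ℤ)
  | 0, _ => 0
  | n + 1, m => ws n (Matrix.vecMul m A) + Matrix.vecMul m A

theorem Zs_dot (n : ℕ) : ∀ (m : Fin k → ℤ) (X : V k),
    ∑ i, (m i : ℝ) * Zs A n X i = ∑ i, (ws A n m i : ℝ) * X i := by
  induction n with
  | zero =>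
    intro m X
    simp [Zs, ws]
  | succ n ih =>
    intro m X
    rw [Zs, lin_dot]
    have h1 : ∀ i, ((Matrix.vecMul m A i : ℤ) : ℝ) * (Zs A n X + X) i =
        ((Matrix.vecMul m A i : ℤ) : ℝ) * Zs A n X i + ((Matrix.vecMul m A i : ℤ) : ℝ) * X i := by
      intro i
      rw [PiLp.add_apply]; ring
    simp only [h1]
    rw [Finset.sum_add_distrib, ih, ← Finset.sum_add_distrib]
    refine Finset.sum_congr rfl fun i _ => ?_
    rw [ws, Pi.add_apply]
    push_cast
    ring

theorem ws_eq (n : ℕ) : ∀ m : Fin k → ℤ,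
    ws A n m = ∑ j ∈ Finset.range n, Matrix.vecMul m (A ^ (j + 1)) := by
  induction n with
  | zero => intro m; simp [ws]
  | succ n ih =>
    intro m
    rw [ws, ih, Finset.sum_range_succ']
    congr 1
    · refine Finset.sum_congr rfl fun j _ => ?_
      rw [Matrix.vecMul_vecMul, ← pow_succ']
    · rw [zero_add, pow_one]

theorem vecMul_inj {B : Matrix (Fin k) (Fin k) ℤ} (hB : IsUnit B) {u v : Fin k → ℤ}
    (h : Matrix.vecMul u B = Matrix.vecMul v B) : u = v := by
  obtain ⟨C, rfl⟩ := hB
  have h1 := congrArg (fun z => Matrix.vecMul z (C⁻¹ : (Matrix (Fin k) (Fin k) ℤ)ˣ).1) h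
  simpa [Matrix.vecMul_vecMul] using h1

theorem ws_inj (hA : IsUnit A.det) (hP : PerCharsFixed A) {m : Fin k → ℤ} (hm : m ≠ 0) :
    Function.Injective fun n => ws A n m := by
  have hA' : IsUnit A := (Matrix.isUnit_iff_isUnit_det A).2 hA
  have key : ∀ (n p : ℕ), ws A n m = ws A (n + p) m → p = 0 := by
    intro n p h
    by_contra hp
    have hp0 : 0 < p := Nat.pos_of_ne_zero hp
    rw [ws_eq, ws_eq, Finset.sum_range_add, left_eq_add] at h
    -- telescoping
    have h1 : Matrix.vecMul (∑ x ∈ Finset.range p, Matrix.vecMul m (A ^ (n + x + 1))) A -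
        (∑ x ∈ Finset.range p, Matrix.vecMul m (A ^ (n + x + 1))) =
        Matrix.vecMul m (A ^ (n + p + 1)) - Matrix.vecMul m (A ^ (n + 1)) := by
      clear h hp hp0
      induction p with
      | zero => simp
      | succ p ih =>
        rw [Finset.sum_range_succ, Matrix.add_vecMul, Matrix.vecMul_vecMul, ← pow_succ]
        have e : ∀ a b c d : Fin k → ℤ, a + b - (c + d) = (a - c) + (b - d) := by
          intro a b c d; abel
        rw [e, ih]
        rw [show n + (p + 1) + 1 = n + p + 1 + 1 by ring]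
        abel
    rw [h, Matrix.zero_vecMul, sub_zero] at h1
    have h2 : Matrix.vecMul (Matrix.vecMul m (A ^ p)) (A ^ (n + 1)) =
        Matrix.vecMul m (A ^ (n + 1)) := by
      rw [Matrix.vecMul_vecMul, ← pow_add]
      rw [show p + (n + 1) = n + p + 1 by ring]
      exact (sub_eq_zero.1 h1.symm)
    have h3 := vecMul_inj (hA'.pow _) h2
    have h4 := hP m p hp0 h3
    have h5 : ∀ j : ℕ, Matrix.vecMul m (A ^ j) = m := by
      intro j
      induction j with
      | zero => simp
      | succ j ih => rw [pow_succ, ← Matrix.vecMul_vecMul, ih, h4]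
    simp only [h5, Finset.sum_const, Finset.card_range] at h
    rcases smul_eq_zero.1 h with h6 | h6
    · exact hp h6
    · exact hm h6
  intro a b hab
  rcases le_total a b with h | h
  · obtain ⟨p, rfl⟩ := Nat.exists_eq_add_of_le h
    have := key a p hab
    omega
  · obtain ⟨p, rfl⟩ := Nat.exists_eq_add_of_le h
    have := key b p hab.symm
    omega

theorem ws_tend (hA : IsUnit A.det) (hP : PerCharsFixed A) {m : Fin k → ℤ} (hm : m ≠ 0) :
    Tendsto (fun n => ws A n m) atTop cofinite := by
  rw [← Nat.cofinite_eq_atTop]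
  exact (ws_inj A hA hP hm).tendsto_cofinite

end Pool.Agent.N15.AS
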