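import Pool.Agent.Y318.MN.Attr

/-!
# Affine torus symmetries: definitions

Author: helper15.
-/

set_option autoImplicit false

open scoped Manifold ContDiff Topology
open Filter Set Metric

universe u

namespace Pool.Agent.N15.AS

open Pool.Agent.H718R2.G Pool.Agent.TH80.OMS Pool.Agent.Y318.MN

/-- A smooth action `R` of the torus `ℝ^k / ℤ^k` on `N` (`V k = ℝ^k`). -/
structure TorusAct (k n : ℕ) (N : Type u) [TopologicalSpace N] [ChartedSpace (V n) N]
    (R : V k → N → N) : Prop where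
  smooth : ContMDiff ((𝓡 k).prod (𝓡 n)) (𝓡 n) ∞ (fun q : V k × N => R q.1 q.2)
  zero : ∀ y, R 0 y = y
  add : ∀ (X Y : V k) (y : N), R (X + Y) y = R X (R Y y)
  per : ∀ X : V k, (∀ i, ∃ m : ℤ, X i = m) → ∀ y, R X y = y

/-- The linear map of `ℝ^k` with the integer matrix `A`. -/
noncomputable def lin {k : ℕ} (A : Matrix (Fin k) (Fin k) ℤ) (X : V k) : V k :=
  WithLp.toLp 2 fun i => ∑ j, (A i j : ℝ) * X j

/-- A character `m ∈ ℤ^k` of the torus which is mapped to itself by a power of `A` is mapped to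
itself by `A`. Equivalently: `1` is the only root of unity which may be an eigenvalue of `A`. -/
def PerCharsFixed {k : ℕ} (A : Matrix (Fin k) (Fin k) ℤ) : Prop :=
  ∀ (m : Fin k → ℤ) (p : ℕ), 0 < p → Matrix.vecMul m (A ^ p) = m → Matrix.vecMul m A = m

/-- FOU: images of balls become dense modulo `ℤ^k`. -/
def S_FOU : Prop :=
  ∀ (k : ℕ) (Z : ℕ → V k → V k) (w : ℕ → (Fin k → ℤ) → (Fin k → ℤ)),
    (∀ n, Continuous (Z n)) →
    (∀ n m X, ∑ i, (m i : ℝ) * Z n X i = ∑ i, (w n m i : ℝ) * X i) →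
    (∀ m, m ≠ 0 → Tendsto (fun n => w n m) atTop cofinite) →
    ∀ (X₀ : V k) (ε δ : ℝ), 0 < ε → 0 < δ → ∃ n₀ : ℕ, ∀ n, n₀ ≤ n → ∀ Y : V k,
      ∃ X : V k, ‖X - X₀‖ < ε ∧ ∃ m : Fin k → ℤ, ∀ i, |Z n X i - Y i - m i| < δ

end Pool.Agent.N15.AS
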