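import Pool.Agent.N15.AS.Alg
import Pool.Agent.N813.CL.Lift
import Pool.Agent.W564.SC.Lib
import Pool.Agent.Y504.CO.Plug

/-!
# Affine torus symmetries: dynamics

Author: helper15.
-/

set_option autoImplicit false
set_option linter.unusedSectionVars false

open scoped Manifold ContDiff Topology
open Filter Set Metric MeasureTheory

universe u

namespace Pool.Agent.N15.AS

open Pool.Agent.H718R2.G Pool.Agent.TH80.OMS Pool.Agent.Y504.CO Pool.Agent.Y318.MN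

variable {k n : ℕ} {N : Type u} [TopologicalSpace N] [T2Space N] [CompactSpace N]
  [ChartedSpace (V n) N] [IsManifold (𝓡 n) ∞ N]

section near

open Pool.Agent.W564.SC

/-- small parameters stay in a given neighbourhood -/
theorem near {r : ℕ∞} (hr : 1 ≤ r) {P : Type} [NormedAddCommGroup P] [NormedSpace ℝ P]
    (H : P → DiffM n N r) (hfam : IsFam n N r H) (U : Set (DiffM n N r))
    (hU : IsOpen[strongTop n N r] U) (hFU : H 0 ∈ U) :
    ∃ κ : ℝ, 0 < κ ∧ ∀ s : P, ‖s‖ < κ → H s ∈ U := by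
  rcases isEmpty_or_nonempty N with hN | ⟨⟨z⟩⟩
  · refine ⟨1, one_pos, fun s _ => ?_⟩
    have : H s = H 0 := by
      ext y
      exact isEmptyElim y
    rw [this]
    exact hFU
  · obtain ⟨χ, hχ⟩ := Pool.Agent.W699.SC.gc n N z
    obtain ⟨l, hl1, hlr, κ, hκ, h⟩ := t_NBHD n N r hr P H hfam χ z hχ U hU hFU
    refine ⟨κ, hκ, fun s hs => ?_⟩
    have h1 := h s 0 (Diffeomorph.refl (𝓡 n) N r) hs
      ⟨contDiff_const, fun _ _ => rfl, fun j _ x => by
        have : (0 : V n → V n) = fun _ => 0 := rfl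
        rw [this, iteratedFDeriv_fun_zero]
        simpa using hκ.le⟩
      ⟨fun y hy => ⟨hy, by simp⟩, fun y _ => rfl⟩
    have e : (H s).trans (Diffeomorph.refl (𝓡 n) N r) = H s := by
      ext y
      rfl
    rwa [e] at h1

end near

theorem TorusAct.exp {R : V k → N → N} (hR : TorusAct k n N R) :
    Pool.Agent.N813.CL.ExpAction k n N R :=
  ⟨hR.smooth, hR.zero, fun s t X y => by rw [add_smul, hR.add]⟩

section act

variable {R : V k → N → N} (hR : TorusAct k n N R)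

include hR

theorem TorusAct.cont : Continuous fun q : V k × N => R q.1 q.2 := hR.smooth.continuous

theorem TorusAct.cont1 (X : V k) : Continuous (R X) :=
  hR.cont.comp (continuous_const.prodMk continuous_id)

theorem TorusAct.neg_add (X : V k) (y : N) : R (-X) (R X y) = y := by
  rw [← hR.add, neg_add_cancel, hR.zero]

theorem TorusAct.add_neg (X : V k) (y : N) : R X (R (-X) y) = y := by
  rw [← hR.add, add_neg_cancel, hR.zero]

theorem crit_R {h : N → ℝ} (hh : ContMDiff (𝓡 n) 𝓘(ℝ, ℝ) ∞ h) (hRh : ∀ X y, h (R X y) = h y)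
    (X : V k) (y : N) (hy : IsCrit n h (R X y)) : IsCrit n h y := by
  have hRs : ContMDiff (𝓡 n) (𝓡 n) ∞ (R X) := by
    have h1 : ContMDiff (𝓡 n) ((𝓡 k).prod (𝓡 n)) ∞ (fun y : N => ((X, y) : V k × N)) :=
      contMDiff_const.prodMk contMDiff_id
    exact hR.smooth.comp h1
  have e : h = h ∘ R X := funext fun y => (hRh X y).symm
  have h1 : MDifferentiableAt (𝓡 n) (𝓡 n) (R X) y := (hRs.mdifferentiable (by simp)) y
  have h2 : MDifferentiableAt (𝓡 n) 𝓘(ℝ, ℝ) h (R X y) := (hh.mdifferentiable (by simp)) _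
  show mfderiv (𝓡 n) 𝓘(ℝ, ℝ) h y = 0
  rw [e, mfderiv_comp y h2 h1]
  have h3 : mfderiv (𝓡 n) 𝓘(ℝ, ℝ) h (R X y) = 0 := hy
  rw [h3]
  exact ContinuousLinearMap.zero_comp _

theorem crit_R' {h : N → ℝ} (hh : ContMDiff (𝓡 n) 𝓘(ℝ, ℝ) ∞ h) (hRh : ∀ X y, h (R X y) = h y)
    (X : V k) (y : N) : IsCrit n h (R X y) ↔ IsCrit n h y := by
  refine ⟨crit_R hR hh hRh X y, fun hy => ?_⟩
  apply crit_R hR hh hRh (-X) (R X y)
  rw [hR.neg_add]
  exact hy

variable {A : Matrix (Fin k) (Fin k) ℤ} {r : ℕ∞} {F : DiffM n N r} {h : N → ℝ}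

theorem iter_crit {H : N → N} {X : V k} (hH : ∀ y, H y = F (R X y)) {x : N}
    (hx : ∀ (j : ℕ) (X : V k), F (R X (F^[j] x)) = R (lin A X) (F (F^[j] x))) (j : ℕ) :
    H^[j] x = R (Zs A j X) (F^[j] x) := by
  induction j with
  | zero => rw [Zs, hR.zero]; rfl
  | succ j ih =>
    rw [Function.iterate_succ_apply', ih, hH, ← hR.add, hx,
      Function.iterate_succ_apply', Zs, add_comm X]

theorem critInv_sub (hA : IsUnit A.det) (hh : ContMDiff (𝓡 n) 𝓘(ℝ, ℝ) ∞ h)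
    (hRh : ∀ X y, h (R X y) = h y)
    (hcomm : ∀ X y, IsCrit n h y → F (R X y) = R (lin A X) (F y)) {H : DiffM n N r} {X : V k}
    (hH : ∀ y, H y = F (R X y)) : CritInv n H h ⊆ CritInv n F h := by
  intro p hp
  have fwd : ∀ j : ℕ, ∃ Y, F^[j] p = R Y (H^[j] p) := by
    intro j
    induction j with
    | zero => exact ⟨0, (hR.zero _).symm⟩
    | succ j ih =>
      obtain ⟨Y, hY⟩ := ih
      refine ⟨lin A (Y - X), ?_⟩
      rw [Function.iterate_succ_apply', hY, Function.iterate_succ_apply', hH,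
        ← hcomm _ _ ((crit_R' hR hh hRh _ _).2 (hp j).1), ← hR.add, sub_add_cancel]
  have bwd : ∀ j : ℕ, ∃ Y, F.symm^[j] p = R Y (H.symm^[j] p) := by
    intro j
    induction j with
    | zero => exact ⟨0, (hR.zero _).symm⟩
    | succ j ih =>
      obtain ⟨Y, hY⟩ := ih
      obtain ⟨Z, hZ⟩ := lin_surj A hA Y
      refine ⟨Z + X, ?_⟩
      rw [Function.iterate_succ_apply', hY, Function.iterate_succ_apply']
      set q := H.symm (H.symm^[j] p) with hq
      have hqc : IsCrit n h q := by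
        have := (hp (j + 1)).2
        rwa [Function.iterate_succ_apply'] at this
      have h1 : H.symm^[j] p = F (R X q) := by
        rw [← hH, hq, H.apply_symm_apply]
      rw [h1, ← hZ, ← hcomm _ _ ((crit_R' hR hh hRh _ _).2 hqc), F.symm_apply_apply, ← hR.add]
  intro j
  obtain ⟨Y, hY⟩ := fwd j
  obtain ⟨Y', hY'⟩ := bwd j
  rw [hY, hY']
  exact ⟨(crit_R' hR hh hRh _ _).2 (hp j).1, (crit_R' hR hh hRh _ _).2 (hp j).2⟩

/-- the tails are dense modulo the torus -/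
theorem tails {M : Set N} (hinv : F '' M = M) {x : N}
    (hx : ∀ (j : ℕ) (X : V k), F (R X (F^[j] x)) = R (lin A X) (F (F^[j] x)))
    (htr : M ⊆ closure {y | ∃ (j : ℕ) (X : V k), y = R X (F^[j] x)}) (n₀ : ℕ) :
    M ⊆ closure {y | ∃ j : ℕ, n₀ ≤ j ∧ ∃ X : V k, y = R X (F^[j] x)} := by
  induction n₀ with
  | zero =>
    refine htr.trans (closure_mono ?_)
    rintro y ⟨j, X, rfl⟩
    exact ⟨j, Nat.zero_le _, X, rfl⟩
  | succ m ih =>
    rw [← hinv]
    refine (image_mono ih).trans ((image_closure_subset_closure_image F.continuous).trans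
      (closure_mono ?_))
    rintro _ ⟨y, ⟨j, hj, X, rfl⟩, rfl⟩
    refine ⟨j + 1, by omega, lin A X, ?_⟩
    rw [hx, Function.iterate_succ_apply']

/-- perturbing the parameter, the orbit reaches a given open set -/
theorem reach (hFOU : S_FOU) (hA : IsUnit A.det) (hP : PerCharsFixed A) {M : Set N}
    (hinv : F '' M = M) {x : N}
    (hx : ∀ (j : ℕ) (X : V k), F (R X (F^[j] x)) = R (lin A X) (F (F^[j] x)))
    (htr : M ⊆ closure {y | ∃ (j : ℕ) (X : V k), y = R X (F^[j] x)}) {W : Set N}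
    (hW : IsOpen W) {v : N} (hv : v ∈ M) (hvW : v ∈ W) (X₀ : V k) (ε : ℝ) (hε : 0 < ε) :
    ∃ X : V k, ‖X - X₀‖ < ε ∧ ∃ j : ℕ, R (Zs A j X) (F^[j] x) ∈ W := by
  have h1 : (fun q : V k × N => R q.1 q.2) ⁻¹' W ∈ 𝓝 ((0 : V k), v) := by
    apply (hR.cont.continuousAt (x := ((0 : V k), v))).preimage_mem_nhds
    show W ∈ 𝓝 (R 0 v)
    rw [hR.zero]
    exact hW.mem_nhds hvW
  rw [mem_nhds_prod_iff] at h1
  obtain ⟨D, hD, W', hW', hsub⟩ := h1
  obtain ⟨δ, hδ, hδD⟩ : ∃ δ : ℝ, 0 < δ ∧ ∀ Z : V k, (∀ i, |Z i| < δ) → Z ∈ D := by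
    have h2 : Tendsto (fun Z : Fin k → ℝ => (WithLp.toLp 2 Z : V k)) (𝓝 0) (𝓝 0) := by
      have := (PiLp.continuous_toLp 2 (fun _ : Fin k => ℝ)).tendsto 0
      simpa using this
    obtain ⟨δ, hδ, h3⟩ := Metric.mem_nhds_iff.1 (h2 hD)
    refine ⟨δ, hδ, fun Z hZ => ?_⟩
    have h4 : (fun i => Z i) ∈ ball (0 : Fin k → ℝ) δ := by
      rw [mem_ball, dist_zero_right, pi_norm_lt_iff hδ]
      intro i
      rw [Real.norm_eq_abs]
      exact hZ i
    exact h3 h4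
  obtain ⟨n₀, hn₀⟩ := hFOU k (Zs A) (ws A) (Zs_cont A) (Zs_dot A)
    (fun m hm => ws_tend A hA hP hm) X₀ ε δ hε hδ
  have h5 := tails hR hinv hx htr n₀ hv
  obtain ⟨y, hyW, j, hj, Y, rfl⟩ := mem_closure_iff_nhds.1 h5 W' hW'
  obtain ⟨X, hX, m, hm⟩ := hn₀ j hj Y
  refine ⟨X, hX, j, ?_⟩
  set mm : V k := WithLp.toLp 2 fun i => (m i : ℝ) with hmm
  have h6 : Zs A j X = (Zs A j X - Y - mm) + (mm + Y) := by abel
  rw [h6, hR.add, hR.add mm, hR.per mm fun i => ⟨m i, rfl⟩]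
  have h7 : Zs A j X - Y - mm ∈ D := by
    apply hδD
    intro i
    exact hm i
  exact hsub (mk_mem_prod h7 hyW)

open Pool.Agent.H728R2.FA (omegaLim IsAttractor FiniteAttractors)

omit hR [T2Space N] [CompactSpace N] [IsManifold (𝓡 n) ∞ N] in
theorem mem_omegaLim_iff {f : N → N} {p y : N} :
    y ∈ omegaLim f p ↔ ∃ u : Ultrafilter ℕ, (u : Filter ℕ) ≤ atTop ∧
      Tendsto (fun j => f^[j] p) u (𝓝 y) := by
  have h1 : y ∈ omegaLim f p ↔ MapClusterPt y atTop (fun j : ℕ => f^[j] p) := by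
    rw [mapClusterPt_iff_frequently]
    constructor
    · intro h2 W hW
      rw [frequently_atTop]
      exact fun a => h2 W hW a
    · intro h2 W hW a
      exact frequently_atTop.1 (h2 W hW) a
  rw [h1, mapClusterPt_iff_ultrafilter]

/-- fractional parts -/
theorem frac_R (X : V k) : ∃ Y : V k, (∀ i, Y i ∈ Icc (0 : ℝ) 1) ∧ ∀ y, R (-X) y = R (-Y) y := by
  refine ⟨WithLp.toLp 2 fun i => Int.fract (X i), fun i => ?_, fun y => ?_⟩
  · exact ⟨Int.fract_nonneg _, (Int.fract_lt_one _).le⟩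
  · have h1 : (-(WithLp.toLp 2 fun i => Int.fract (X i)) : V k) =
        -X + WithLp.toLp 2 (fun i => ((⌊X i⌋ : ℤ) : ℝ)) := by
      ext i
      show -Int.fract (X i) = -X i + ((⌊X i⌋ : ℤ) : ℝ)
      rw [Int.fract]
      ring
    rw [h1, hR.add, hR.per (WithLp.toLp 2 fun i => ((⌊X i⌋ : ℤ) : ℝ)) (fun i => ⟨⌊X i⌋, rfl⟩)]

theorem omega_sub_of {f g : N → N} {M : Set N} (hMR : ∀ X, ∀ y ∈ M, R X y ∈ M) {p : N}
    (hfg : ∀ j : ℕ, ∃ Z : V k, g^[j] p = R Z (f^[j] p)) (hf : omegaLim f p ⊆ M) :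
    omegaLim g p ⊆ M := by
  intro y hy
  obtain ⟨u, hu, hyu⟩ := mem_omegaLim_iff.1 hy
  have h1 : ∀ j : ℕ, ∃ Y : V k, (∀ i, Y i ∈ Icc (0 : ℝ) 1) ∧ f^[j] p = R (-Y) (g^[j] p) := by
    intro j
    obtain ⟨Z, hZ⟩ := hfg j
    obtain ⟨Y, hY, hY2⟩ := frac_R hR Z
    refine ⟨Y, hY, ?_⟩
    rw [← hY2, hZ, hR.neg_add]
  choose Y hY hYe using h1
  have hK : IsCompact ((fun Z : Fin k → ℝ => (WithLp.toLp 2 Z : V k)) '' (Set.pi univ fun _ =>
      Icc (0 : ℝ) 1)) :=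
    (isCompact_univ_pi fun _ => isCompact_Icc).image (PiLp.continuous_toLp 2 _)
  have hYK : ∀ j, Y j ∈ (fun Z : Fin k → ℝ => (WithLp.toLp 2 Z : V k)) '' (Set.pi univ fun _ =>
      Icc (0 : ℝ) 1) := fun j => ⟨fun i => Y j i, fun i _ => hY j i, rfl⟩
  obtain ⟨Y', -, hY'⟩ := hK.ultrafilter_le_nhds (u.map Y) (by
    rw [Ultrafilter.coe_map]
    exact tendsto_principal.2 (Eventually.of_forall hYK))
  have hYt : Tendsto Y u (𝓝 Y') := hY'
  have h2 : Tendsto (fun j => f^[j] p) u (𝓝 (R (-Y') y)) := by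
    have h3 : Tendsto (fun j => R (-(Y j)) (g^[j] p)) u (𝓝 (R (-Y') y)) :=
      (hR.cont.tendsto (-Y', y)).comp (hYt.neg.prodMk_nhds hyu)
    exact h3.congr fun j => (hYe j).symm
  have h3 : R (-Y') y ∈ M := hf (mem_omegaLim_iff.2 ⟨u, hu, h2⟩)
  have h4 := hMR Y' _ h3
  rwa [hR.add_neg] at h4

end act

end Pool.Agent.N15.AS
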