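import Mathlib

set_option autoImplicit false
set_option linter.unusedSectionVars false

/-!
Project AS (helper15), leaf FOU: the images of balls become dense modulo `ℤ^k` (helper543).
-/

namespace Pool.Agent.N15.AS

namespace FouAux

open MeasureTheory Filter Topology UnitAddTorus

variable {k : ℕ}

/-- the projection onto the torus -/
noncomputable def pr (v : Fin k → ℝ) : UnitAddTorus (Fin k) :=
  fun i => ((v i : ℝ) : UnitAddCircle)

theorem continuous_pr : Continuous (pr (k := k)) :=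
  continuous_pi fun i => (AddCircle.continuous_mk' (1 : ℝ)).comp (continuous_apply i)

theorem mFourier_pr (m : Fin k → ℤ) (v : Fin k → ℝ) :
    mFourier m (pr v) =
      Complex.exp (2 * Real.pi * Complex.I * ((∑ i, (m i : ℝ) * v i : ℝ) : ℂ)) := by
  show ∏ i, fourier (m i) ((v i : ℝ) : UnitAddCircle) = _
  simp only [fourier_coe_apply]
  rw [← Complex.exp_sum]
  congr 1
  push_cast
  rw [Finset.mul_sum]
  refine Finset.sum_congr rfl fun i _ => ?_
  ring

/-- the map `a ↦ - a` from `ℤ^k` to `ℝ^k` -/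
noncomputable def io (a : Fin k → ℤ) : EuclideanSpace ℝ (Fin k) :=
  WithLp.toLp 2 fun i => -(a i : ℝ)

theorem tendsto_io : Tendsto (io (k := k)) cofinite (cocompact (EuclideanSpace ℝ (Fin k))) := by
  rw [← Metric.cobounded_eq_cocompact, ← tendsto_norm_atTop_iff_cobounded, tendsto_atTop]
  intro r
  rw [eventually_cofinite]
  refine (Set.finite_Icc (fun _ : Fin k => -⌈r⌉) (fun _ => ⌈r⌉)).subset ?_
  intro a ha
  have h1 : ‖io a‖ < r := lt_of_not_ge ha
  have h2 : ∀ i, |(a i : ℝ)| ≤ ⌈r⌉ := by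
    intro i
    have h3 := PiLp.norm_apply_le (io a) i
    have h4 : ‖(io a) i‖ = |(a i : ℝ)| := by
      show ‖-(a i : ℝ)‖ = _
      rw [norm_neg, Real.norm_eq_abs]
    rw [h4] at h3
    exact (h3.trans h1.le).trans (Int.le_ceil r)
  have h5 : ∀ i, -⌈r⌉ ≤ a i ∧ a i ≤ ⌈r⌉ := by
    intro i
    have h6 := abs_le.1 (h2 i)
    exact ⟨by exact_mod_cast h6.1, by exact_mod_cast h6.2⟩
  exact ⟨fun i => (h5 i).1, fun i => (h5 i).2⟩

/-- integrals of exponentials over balls -/
theorem rl (X₀ : EuclideanSpace ℝ (Fin k)) (ε : ℝ) (w : ℕ → (Fin k → ℤ))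
    (hw : Tendsto w atTop cofinite) :
    Tendsto (fun n => ∫ X in Metric.ball X₀ ε,
      Complex.exp (2 * Real.pi * Complex.I * ((∑ i, (w n i : ℝ) * X i : ℝ) : ℂ))) atTop (𝓝 0) := by
  have h1 := (tendsto_integral_exp_inner_smul_cocompact (V := EuclideanSpace ℝ (Fin k))
    (Set.indicator (Metric.ball X₀ ε) (fun _ => (1 : ℂ)))).comp (tendsto_io.comp hw)
  refine h1.congr fun n => ?_
  rw [← integral_indicator Metric.isOpen_ball.measurableSet]
  show ∫ v, _ = _
  refine integral_congr_ae (Eventually.of_forall fun v => ?_)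
  show (Real.fourierChar (-(inner ℝ v (io (w n)))) : Circle) • Set.indicator (Metric.ball X₀ ε)
    (fun _ => (1 : ℂ)) v = Set.indicator (Metric.ball X₀ ε) (fun X =>
      Complex.exp (2 * Real.pi * Complex.I * ((∑ i, (w n i : ℝ) * X i : ℝ) : ℂ))) v
  by_cases hv : v ∈ Metric.ball X₀ ε
  · rw [Set.indicator_of_mem hv, Set.indicator_of_mem hv, Circle.smul_def, smul_eq_mul, mul_one,
      Real.fourierChar_apply]
    congr 1
    have h2 : inner ℝ v (io (w n)) = - ∑ i, (w n i : ℝ) * v i := by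
      rw [PiLp.inner_apply, ← Finset.sum_neg_distrib]
      refine Finset.sum_congr rfl fun i _ => ?_
      show inner ℝ (v i) (-(w n i : ℝ)) = _
      rw [RCLike.inner_apply, conj_trivial]
      ring
    rw [h2, neg_neg]
    push_cast
    ring
  · rw [Set.indicator_of_notMem hv, Set.indicator_of_notMem hv, smul_zero]

/-- the integral of a nontrivial character -/
theorem integral_mFourier (μ : Measure (UnitAddTorus (Fin k))) [μ.IsAddHaarMeasure]
    (m : Fin k → ℤ) (hm : m ≠ 0) : ∫ x, mFourier m x ∂μ = 0 := by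
  obtain ⟨i, hi⟩ : ∃ i, m i ≠ 0 := by
    by_contra hcon
    push Not at hcon
    exact hm (funext hcon)
  refine integral_eq_zero_of_add_right_eq_neg
    (g := pr (Pi.single i (1 / 2 / (m i : ℝ)))) (fun x => ?_)
  have h1 : mFourier m (pr (Pi.single i (1 / 2 / (m i : ℝ)))) = -1 := by
    rw [mFourier_pr]
    have h2 : ∑ j, (m j : ℝ) * (Pi.single i (1 / 2 / (m i : ℝ)) : Fin k → ℝ) j = 1 / 2 := by
      rw [Finset.sum_eq_single i]
      · rw [Pi.single_eq_same]
        have h3 : (m i : ℝ) ≠ 0 := by exact_mod_cast hi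
        field_simp
      · intro j _ hj
        rw [Pi.single_eq_of_ne hj, mul_zero]
      · intro h
        exact absurd (Finset.mem_univ i) h
    rw [h2, ← Complex.exp_pi_mul_I]
    congr 1
    push_cast
    ring
  have h2 : ∀ x y : UnitAddTorus (Fin k), mFourier m (x + y) = mFourier m x * mFourier m y := by
    intro x y
    show ∏ i, fourier (m i) (x i + y i) = (∏ i, fourier (m i) (x i)) * ∏ i, fourier (m i) (y i)
    rw [← Finset.prod_mul_distrib]
    refine Finset.prod_congr rfl fun i _ => ?_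
    rw [fourier_apply, fourier_apply, fourier_apply, smul_add, AddCircle.toCircle_add]
    rfl
  rw [h2, h1, mul_neg, mul_one]

section main

variable (μ : Measure (UnitAddTorus (Fin k))) [μ.IsAddHaarMeasure]
  (Z : ℕ → EuclideanSpace ℝ (Fin k) → EuclideanSpace ℝ (Fin k))
  (X₀ : EuclideanSpace ℝ (Fin k)) (ε : ℝ)

/-- the average over the ball -/
noncomputable def J (n : ℕ) (Y : EuclideanSpace ℝ (Fin k)) (c : C(UnitAddTorus (Fin k), ℂ)) : ℂ :=
  ∫ X in Metric.ball X₀ ε, c (pr fun i => Z n X i - Y i)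

/-- the difference of the averages -/
noncomputable def De (n : ℕ) (Y : EuclideanSpace ℝ (Fin k)) (c : C(UnitAddTorus (Fin k), ℂ)) : ℂ :=
  ((μ.real Set.univ : ℝ) : ℂ) * J Z X₀ ε n Y c -
    ((volume.real (Metric.ball X₀ ε) : ℝ) : ℂ) * ∫ x, c x ∂μ

variable (hZ : ∀ n, Continuous (Z n))

include hZ in
theorem int_J (n : ℕ) (Y : EuclideanSpace ℝ (Fin k)) (c : C(UnitAddTorus (Fin k), ℂ)) :
    IntegrableOn (fun X => c (pr fun i => Z n X i - Y i)) (Metric.ball X₀ ε) := by
  have h1 : Continuous fun X => c (pr fun i => Z n X i - Y i) := by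
    refine c.continuous.comp (continuous_pr.comp (continuous_pi fun i => ?_))
    have h2 : Continuous fun X => Z n X i := (EuclideanSpace.proj i).continuous.comp (hZ n)
    exact h2.sub continuous_const
  exact (h1.continuousOn.integrableOn_compact (isCompact_closedBall X₀ ε)).mono_set
    Metric.ball_subset_closedBall

theorem int_mu (c : C(UnitAddTorus (Fin k), ℂ)) : Integrable c μ := by
  have h1 := c.continuous.continuousOn.integrableOn_compact (μ := μ) isCompact_univ
  rwa [integrableOn_univ] at h1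

include hZ in
theorem De_add (n : ℕ) (Y : EuclideanSpace ℝ (Fin k)) (c c' : C(UnitAddTorus (Fin k), ℂ)) :
    De μ Z X₀ ε n Y (c + c') = De μ Z X₀ ε n Y c + De μ Z X₀ ε n Y c' := by
  have h1 : J Z X₀ ε n Y (c + c') = J Z X₀ ε n Y c + J Z X₀ ε n Y c' :=
    integral_add (int_J Z X₀ ε hZ n Y c) (int_J Z X₀ ε hZ n Y c')
  have h2 : ∫ x, (c + c') x ∂μ = ∫ x, c x ∂μ + ∫ x, c' x ∂μ :=
    integral_add (int_mu μ c) (int_mu μ c')
  rw [De, De, De, h1, h2]
  ring

theorem De_smul (n : ℕ) (Y : EuclideanSpace ℝ (Fin k)) (a : ℂ) (c : C(UnitAddTorus (Fin k), ℂ)) :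
    De μ Z X₀ ε n Y (a • c) = a * De μ Z X₀ ε n Y c := by
  have h1 : J Z X₀ ε n Y (a • c) = a * J Z X₀ ε n Y c := integral_const_mul a _
  have h2 : ∫ x, (a • c) x ∂μ = a * ∫ x, c x ∂μ := integral_const_mul a _
  rw [De, De, h1, h2]
  ring

theorem De_bound (n : ℕ) (Y : EuclideanSpace ℝ (Fin k)) (c : C(UnitAddTorus (Fin k), ℂ)) :
    ‖De μ Z X₀ ε n Y c‖ ≤ 2 * μ.real Set.univ * volume.real (Metric.ball X₀ ε) * ‖c‖ := by
  have h1 : ‖J Z X₀ ε n Y c‖ ≤ ‖c‖ * volume.real (Metric.ball X₀ ε) :=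
    norm_setIntegral_le_of_norm_le_const measure_ball_lt_top fun X _ => c.norm_coe_le_norm _
  have h2 : ‖∫ x, c x ∂μ‖ ≤ ‖c‖ * μ.real Set.univ :=
    norm_integral_le_of_norm_le_const (Eventually.of_forall fun x => c.norm_coe_le_norm _)
  have h3 : (0 : ℝ) ≤ μ.real Set.univ := measureReal_nonneg
  have h4 : (0 : ℝ) ≤ volume.real (Metric.ball X₀ ε) := measureReal_nonneg
  refine (norm_sub_le _ _).trans ?_
  rw [norm_mul, norm_mul, Complex.norm_real, Complex.norm_real, Real.norm_of_nonneg h3,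
    Real.norm_of_nonneg h4]
  nlinarith [mul_le_mul_of_nonneg_left h1 h3, mul_le_mul_of_nonneg_left h2 h4]

/-- the averages converge -/
def Good (c : C(UnitAddTorus (Fin k), ℂ)) : Prop :=
  ∀ η : ℝ, 0 < η → ∃ n₀ : ℕ, ∀ n, n₀ ≤ n → ∀ Y, ‖De μ Z X₀ ε n Y c‖ ≤ η

variable (w : ℕ → (Fin k → ℤ) → (Fin k → ℤ))
    (hw : ∀ n m X, ∑ i, (m i : ℝ) * Z n X i = ∑ i, (w n m i : ℝ) * X i)
    (hinf : ∀ m, m ≠ 0 → Filter.Tendsto (fun n => w n m) Filter.atTop Filter.cofinite)

include hw hinf in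
theorem good_mFourier (m : Fin k → ℤ) : Good μ Z X₀ ε (mFourier m) := by
  intro η hη
  by_cases hm : m = 0
  · subst hm
    refine ⟨0, fun n _ Y => ?_⟩
    have h1 : De μ Z X₀ ε n Y (mFourier 0) = 0 := by
      rw [De, J, mFourier_zero]
      simp only [ContinuousMap.one_apply, integral_const, Complex.real_smul, mul_one,
        measureReal_restrict_apply_univ]
      ring
    rw [h1, norm_zero]
    exact hη.le
  · have h1 := (rl X₀ ε (fun n => w n m) (hinf m hm)).norm
    rw [norm_zero] at h1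
    have h2 := h1.const_mul (μ.real Set.univ)
    rw [mul_zero] at h2
    obtain ⟨n₀, hn₀⟩ := eventually_atTop.1 (h2.eventually (gt_mem_nhds hη))
    refine ⟨n₀, fun n hn Y => ?_⟩
    have h3 := (hn₀ n hn).le
    refine le_trans (le_of_eq ?_) h3
    rw [De, integral_mFourier μ m hm, mul_zero, sub_zero, norm_mul, Complex.norm_real,
      Real.norm_of_nonneg measureReal_nonneg]
    congr 1
    have h4 : J Z X₀ ε n Y (mFourier m) =
        Complex.exp (-(2 * Real.pi * Complex.I * ((∑ i, (m i : ℝ) * Y i : ℝ) : ℂ))) *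
        ∫ X in Metric.ball X₀ ε,
          Complex.exp (2 * Real.pi * Complex.I * ((∑ i, (w n m i : ℝ) * X i : ℝ) : ℂ)) := by
      rw [J, ← integral_const_mul]
      congr 1
      funext X
      rw [mFourier_pr, ← hw, ← Complex.exp_add]
      congr 1
      have h5 : ∑ i, (m i : ℝ) * (Z n X i - Y i) = ∑ i, (m i : ℝ) * Z n X i -
          ∑ i, (m i : ℝ) * Y i := by
        rw [← Finset.sum_sub_distrib]
        exact Finset.sum_congr rfl fun i _ => mul_sub _ _ _
      rw [h5]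
      push_cast
      ring
    rw [h4, norm_mul]
    have h6 : ‖Complex.exp (-(2 * Real.pi * Complex.I * ((∑ i, (m i : ℝ) * Y i : ℝ) : ℂ)))‖ = 1 := by
      have h7 : -(2 * Real.pi * Complex.I * ((∑ i, (m i : ℝ) * Y i : ℝ) : ℂ)) =
          ((-(2 * Real.pi * ∑ i, (m i : ℝ) * Y i) : ℝ) : ℂ) * Complex.I := by
        push_cast
        ring
      rw [h7, Complex.norm_exp_ofReal_mul_I]
    rw [h6, one_mul]

include hZ hw hinf in
theorem good_all (c : C(UnitAddTorus (Fin k), ℂ)) : Good μ Z X₀ ε c := by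
  have hspan : ∀ c ∈ Submodule.span ℂ (Set.range (mFourier (d := Fin k))), Good μ Z X₀ ε c := by
    intro c hc
    induction hc using Submodule.span_induction with
    | mem x hx =>
      obtain ⟨m, rfl⟩ := hx
      exact good_mFourier μ Z X₀ ε w hw hinf m
    | zero =>
      intro η hη
      refine ⟨0, fun n _ Y => ?_⟩
      have h1 := De_bound μ Z X₀ ε n Y 0
      have h2 : ‖(0 : C(UnitAddTorus (Fin k), ℂ))‖ = 0 := norm_zero
      rw [h2, mul_zero] at h1
      exact h1.trans hη.le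
    | add x y _ _ hx hy =>
      intro η hη
      obtain ⟨n₁, h1⟩ := hx (η / 2) (half_pos hη)
      obtain ⟨n₂, h2⟩ := hy (η / 2) (half_pos hη)
      refine ⟨max n₁ n₂, fun n hn Y => ?_⟩
      rw [De_add μ Z X₀ ε hZ]
      refine (norm_add_le _ _).trans ?_
      have h3 := h1 n ((le_max_left _ _).trans hn) Y
      have h4 := h2 n ((le_max_right _ _).trans hn) Y
      linarith
    | smul a x _ hx =>
      intro η hη
      obtain ⟨n₁, h1⟩ := hx (η / (‖a‖ + 1)) (by positivity)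
      refine ⟨n₁, fun n hn Y => ?_⟩
      rw [De_smul, norm_mul]
      have h3 := h1 n hn Y
      have h4 : (0 : ℝ) < ‖a‖ + 1 := by positivity
      rw [le_div_iff₀ h4] at h3
      have h5 := norm_nonneg (De μ Z X₀ ε n Y x)
      nlinarith
  intro η hη
  set K : ℝ := 2 * μ.real Set.univ * volume.real (Metric.ball X₀ ε) with hK
  have hK0 : 0 ≤ K := by
    have h3 : (0 : ℝ) ≤ μ.real Set.univ := measureReal_nonneg
    have h4 : (0 : ℝ) ≤ volume.real (Metric.ball X₀ ε) := measureReal_nonneg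
    positivity
  have h1 : c ∈ (Submodule.span ℂ (Set.range (mFourier (d := Fin k)))).topologicalClosure := by
    rw [span_mFourier_closure_eq_top]
    trivial
  have h2 : c ∈ closure (Submodule.span ℂ (Set.range (mFourier (d := Fin k))) :
    Set C(UnitAddTorus (Fin k), ℂ)) := h1
  rw [Metric.mem_closure_iff] at h2
  obtain ⟨c', hc', hd⟩ := h2 (η / (2 * (K + 1))) (by positivity)
  obtain ⟨n₀, hn₀⟩ := hspan c' hc' (η / 2) (half_pos hη)
  refine ⟨n₀, fun n hn Y => ?_⟩
  have h3 : De μ Z X₀ ε n Y c = De μ Z X₀ ε n Y c' + De μ Z X₀ ε n Y (c - c') := by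
    rw [← De_add μ Z X₀ ε hZ, add_sub_cancel]
  rw [h3]
  refine (norm_add_le _ _).trans ?_
  have h4 := De_bound μ Z X₀ ε n Y (c - c')
  have h5 := hn₀ n hn Y
  rw [dist_eq_norm, lt_div_iff₀ (by positivity)] at hd
  have h6 := norm_nonneg (c - c')
  nlinarith

end main

end FouAux

open FouAux MeasureTheory Filter Topology UnitAddTorus in
theorem fou (k : ℕ) (Z : ℕ → EuclideanSpace ℝ (Fin k) → EuclideanSpace ℝ (Fin k))
    (w : ℕ → (Fin k → ℤ) → (Fin k → ℤ)) (hZ : ∀ n, Continuous (Z n))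
    (hw : ∀ n m X, ∑ i, (m i : ℝ) * Z n X i = ∑ i, (w n m i : ℝ) * X i)
    (hinf : ∀ m, m ≠ 0 → Filter.Tendsto (fun n => w n m) Filter.atTop Filter.cofinite)
    (X₀ : EuclideanSpace ℝ (Fin k)) (ε δ : ℝ) (hε : 0 < ε) (hδ : 0 < δ) :
    ∃ n₀ : ℕ, ∀ n, n₀ ≤ n → ∀ Y : EuclideanSpace ℝ (Fin k),
      ∃ X : EuclideanSpace ℝ (Fin k), ‖X - X₀‖ < ε ∧ ∃ m : Fin k → ℤ, ∀ i, |Z n X i - Y i - m i| < δ := by
  let μ : Measure (UnitAddTorus (Fin k)) := Measure.addHaar
  have hc : Continuous fun x : UnitAddTorus (Fin k) => max 0 (δ - ‖x‖) := by fun_prop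
  let c : C(UnitAddTorus (Fin k), ℂ) := ⟨fun x => ((max 0 (δ - ‖x‖) : ℝ) : ℂ), by fun_prop⟩
  have hI : 0 < ∫ x : UnitAddTorus (Fin k), max 0 (δ - ‖x‖) ∂μ := by
    refine hc.integral_pos_of_hasCompactSupport_nonneg_nonzero
      (HasCompactSupport.of_compactSpace _) (fun x => le_max_left _ _) (x := 0) ?_
    rw [norm_zero, sub_zero, max_eq_right hδ.le]
    exact hδ.ne'
  have hcI : ∫ x, c x ∂μ = ((∫ x : UnitAddTorus (Fin k), max 0 (δ - ‖x‖) ∂μ : ℝ) : ℂ) :=
    integral_ofReal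
  have hv : 0 < volume.real (Metric.ball X₀ ε) :=
    ENNReal.toReal_pos (Metric.measure_ball_pos _ _ hε).ne' measure_ball_lt_top.ne
  set I := ∫ x : UnitAddTorus (Fin k), max 0 (δ - ‖x‖) ∂μ
  obtain ⟨n₀, hn₀⟩ := good_all μ Z X₀ ε hZ w hw hinf c (volume.real (Metric.ball X₀ ε) * I / 2)
    (by positivity)
  refine ⟨n₀, fun n hn Y => ?_⟩
  by_contra hcon
  push Not at hcon
  have h1 : J Z X₀ ε n Y c = 0 := by
    rw [J]
    refine setIntegral_eq_zero_of_forall_eq_zero fun X hX => ?_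
    show ((max 0 (δ - ‖pr fun i => Z n X i - Y i‖) : ℝ) : ℂ) = 0
    have h2 := hcon X (by rwa [← mem_ball_iff_norm])
    obtain ⟨i, hi⟩ := h2 fun i => round (Z n X i - Y i)
    have h3 : δ ≤ ‖pr fun i => Z n X i - Y i‖ := by
      refine le_trans ?_ (norm_le_pi_norm _ i)
      show δ ≤ ‖((Z n X i - Y i : ℝ) : UnitAddCircle)‖
      rw [UnitAddCircle.norm_eq]
      exact hi
    rw [max_eq_left (by linarith)]
    rfl
  have h2 := hn₀ n hn Y
  rw [De, h1, hcI, mul_zero, zero_sub, norm_neg, norm_mul, Complex.norm_real, Complex.norm_real,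
    Real.norm_of_nonneg hv.le, Real.norm_of_nonneg hI.le] at h2
  have h3 : 0 < volume.real (Metric.ball X₀ ε) * I := by positivity
  linarith

end Pool.Agent.N15.AS
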