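import Pool.Agent.N15.AS.Dyn

/-!
# Affine torus symmetries: finitude of attractors

Author: helper15.
-/

set_option autoImplicit false
set_option linter.unusedSectionVars false

open scoped Manifold ContDiff Topology
open Filter Set Metric MeasureTheory

universe u

namespace Pool.Agent.N15.AS

open Pool.Agent.H718R2.G Pool.Agent.TH80.OMS Pool.Agent.Y504.CO Pool.Agent.Y318.MN

open Pool.Agent.H728R2.FA (omegaLim IsAttractor FiniteAttractors)

variable {k n : ℕ} {N : Type u} [TopologicalSpace N] [T2Space N] [CompactSpace N]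
  [ChartedSpace (V n) N] [IsManifold (𝓡 n) ∞ N]
  {R : V k → N → N} {A : Matrix (Fin k) (Fin k) ℤ} {r : ℕ∞} {F : DiffM n N r} {h : N → ℝ}

/-- `M` is a closed set, invariant under `F` and under the torus, on which `F` is transitive modulo
the torus: some point of `M` has a dense orbit in `M` under the maps `R_X ∘ F^j`, `j ≥ 0`. -/
def TransMod {k : ℕ} {N : Type u} [TopologicalSpace N] (R : V k → N → N) (F : N → N) (M : Set N) :
    Prop :=
  IsClosed M ∧ F '' M = M ∧ (∀ X, ∀ y ∈ M, R X y ∈ M) ∧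
    ∃ x ∈ M, M ⊆ closure {y | ∃ (j : ℕ) (X : V k), y = R X (F^[j] x)}

/-- for a residual set of parameters the orbits are dense in the given sets -/
theorem dense_par (hFOU : S_FOU) (hR : TorusAct k n N R) (hA : IsUnit A.det)
    (hP : PerCharsFixed A) {m : ℕ}
    (M : Fin m → Set N) (hinv : ∀ i, F '' M i = M i) (x : Fin m → N)
    (hx : ∀ i, ∀ (j : ℕ) (X : V k), F (R X (F^[j] (x i))) = R (lin A X) (F (F^[j] (x i))))
    (htr : ∀ i, M i ⊆ closure {y | ∃ (j : ℕ) (X : V k), y = R X (F^[j] (x i))}) :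
    {X : V k | ∀ i, M i ⊆ closure (range fun j : ℕ => R (Zs A j X) (F^[j] (x i)))} ∈
      residual (V k) := by
  have hmet := exists_metric n N
  let _ : MetricSpace N := TopologicalSpace.metrizableSpaceMetric N
  have hb := TopologicalSpace.isBasis_countableBasis N
  have hc := TopologicalSpace.countable_countableBasis N
  let J := {p : Fin m × {W : Set N // W ∈ TopologicalSpace.countableBasis N} //
    (M p.1 ∩ p.2.1).Nonempty}
  have : Countable {W : Set N // W ∈ TopologicalSpace.countableBasis N} := hc.to_subtype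
  have hJ : Countable J := inferInstance
  let O : J → Set (V k) := fun p => ⋃ j : ℕ, {X | R (Zs A j X) (F^[j] (x p.1.1)) ∈ p.1.2.1}
  have hOo : ∀ p, IsOpen (O p) := by
    intro p
    refine isOpen_iUnion fun j => ?_
    have hc1 : Continuous fun X : V k => R (Zs A j X) (F^[j] (x p.1.1)) :=
      hR.cont.comp ((Zs_cont A j).prodMk continuous_const)
    exact (hb.isOpen p.1.2.2).preimage hc1
  have hOd : ∀ p, Dense (O p) := by
    rintro ⟨⟨i, W, hW⟩, v, hvM, hvW⟩
    rw [Metric.dense_iff]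
    intro X₀ ε hε
    obtain ⟨X, hX, j, hj⟩ := reach hR hFOU hA hP (hinv i) (hx i) (htr i) (hb.isOpen hW) hvM
      hvW X₀ ε hε
    refine ⟨X, ?_, mem_iUnion.2 ⟨j, hj⟩⟩
    rw [mem_ball, dist_eq_norm]
    exact hX
  refine Filter.mem_of_superset (countable_iInter_mem.2 fun p =>
    residual_of_dense_open (hOo p) (hOd p)) ?_
  intro X hX i v hv
  rw [_root_.mem_closure_iff]
  intro o ho hvo
  obtain ⟨W, hW, hvW, hWo⟩ := hb.exists_subset_of_mem_open hvo ho
  obtain ⟨j, hj⟩ := mem_iUnion.1 (mem_iInter.1 hX ⟨⟨i, W, hW⟩, v, hv, hvW⟩)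
  exact ⟨_, hWo hj, j, rfl⟩

/-- orbits stay in invariant sets -/
theorem iter_in {f : N → N} {M : Set N} (hinv : f '' M = M) {x : N} (hx : x ∈ M) (j : ℕ) :
    f^[j] x ∈ M := by
  induction j with
  | zero => exact hx
  | succ j ih =>
    rw [Function.iterate_succ_apply', ← hinv]
    exact mem_image_of_mem _ ih

theorem inv_comp (hR : TorusAct k n N R) {M : Set N} (hinv : F '' M = M)
    (hinvR : ∀ X, ∀ y ∈ M, R X y ∈ M) {H : N → N} {X : V k} (hH : ∀ y, H y = F (R X y)) :
    H '' M = M := by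
  have e : H = F ∘ R X := funext fun y => hH y
  have h1 : R X '' M = M := by
    refine Subset.antisymm ?_ fun y hy => ⟨R (-X) y, hinvR _ y hy, hR.add_neg X y⟩
    rintro _ ⟨y, hy, rfl⟩
    exact hinvR X y hy
  rw [e, image_comp, h1, hinv]

/-- **Finitude modulo the torus implies finitude for a residual set of parameters.** -/
theorem main1 (hFOU : S_FOU) (hR : TorusAct k n N R) (hA : IsUnit A.det)
    (hP : PerCharsFixed A) (hcomm : ∀ X y, F (R X y) = R (lin A X) (F y)) {m : ℕ}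
    (M : Fin m → Set N) (hM : ∀ i, TransMod R F (M i)) [MeasurableSpace N] (μ : Measure N)
    (hpos : ∀ i, 0 < μ {p | omegaLim F p ⊆ M i})
    (hcov : μ {p | ∀ i, ¬ omegaLim F p ⊆ M i} = 0) :
    ∀ᶠ X in residual (V k), (∀ i, IsAttractor μ (fun y => F (R X y)) (M i)) ∧
      μ {p | ∀ i, ¬ omegaLim (fun y => F (R X y)) p ⊆ M i} = 0 := by
  choose hcl hinv hinvR x hxM hxd using hM
  have hxc : ∀ i, ∀ (j : ℕ) (X : V k),
      F (R X (F^[j] (x i))) = R (lin A X) (F (F^[j] (x i))) := fun i j X => hcomm _ _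
  filter_upwards [dense_par hFOU hR hA hP M hinv x hxc hxd] with X hX
  have hit : ∀ (p : N) (j : ℕ), (fun y => F (R X y))^[j] p = R (Zs A j X) (F^[j] p) :=
    fun p j => iter_crit hR (fun y => rfl) (fun j X => hcomm _ _) j
  have hbas : ∀ p i, omegaLim (fun y => F (R X y)) p ⊆ M i ↔ omegaLim F p ⊆ M i := by
    intro p i
    constructor
    · exact omega_sub_of hR (hinvR i) fun j => ⟨-(Zs A j X), by rw [hit, hR.neg_add]⟩
    · exact omega_sub_of hR (hinvR i) fun j => ⟨Zs A j X, hit p j⟩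
  refine ⟨fun i => ⟨inv_comp hR (hinv i) (hinvR i) fun y => rfl, ⟨x i, hxM i, ?_⟩, ?_⟩, ?_⟩
  · simp only [hit]
    exact hX i
  · simp only [hbas]
    exact hpos i
  · simp only [hbas]
    exact hcov

/-- **Finitude of attractors near diffeomorphisms with affine torus symmetries.** -/
theorem main2 (hFOU : S_FOU) (hr : 1 ≤ r) (hR : TorusAct k n N R) (hA : IsUnit A.det)
    (hP : PerCharsFixed A) (hh : ContMDiff (𝓡 n) 𝓘(ℝ, ℝ) ∞ h) (hRh : ∀ X y, h (R X y) = h y)
    (hm : ∀ y, h y ≤ h (F y))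
    (hcomm : ∀ X y, IsCrit n h y → F (R X y) = R (lin A X) (F y)) {m : ℕ}
    (M : Fin m → Set N) (hM : ∀ i, TransMod R F (M i))
    (hdis : ∀ i j, i ≠ j → Disjoint (M i) (M j))
    (hC : ∀ i, ∀ y ∈ M i, IsCrit n h y)
    (hcov : CritInv n F h ⊆ ⋃ i, M i) (U : Set (DiffM n N r))
    (hU : IsOpen[strongTop n N r] U) (hFU : F ∈ U) :
    ∃ G ∈ U, (∀ p, ∃ i, omegaLim G p ⊆ M i) ∧
      ∀ (_ : MeasurableSpace N) (μ : Measure N), FiniteAttractors μ G := by
  obtain ⟨H, hH, hH0, hfam⟩ := Pool.Agent.N813.CL.exp_fam hR.exp r F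
  obtain ⟨κ, hκ, hnear⟩ := near hr H hfam U hU (by rw [hH0]; exact hFU)
  choose hcl hinv hinvR x hxM hxd using hM
  have hxc : ∀ i, ∀ (j : ℕ) (X : V k),
      F (R X (F^[j] (x i))) = R (lin A X) (F (F^[j] (x i))) := fun i j X =>
    hcomm _ _ (hC i _ (iter_in (hinv i) (hxM i) j))
  have hd := dense_of_mem_residual (dense_par hFOU hR hA hP M hinv x hxc hxd)
  obtain ⟨X, hX, hXd⟩ := Metric.dense_iff.1 hd 0 κ hκ
  rw [mem_ball, dist_zero_right] at hX
  refine finitude hr (H X) hh (fun y => ?_) M hcl (fun i => inv_comp hR (hinv i) (hinvR i) (hH X))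
    hdis hC (fun i => ?_)
    ((critInv_sub hR hA hh hRh hcomm (hH X)).trans hcov) U hU (hnear X hX)
  · rw [hH]
    calc h y = h (R X y) := (hRh X y).symm
      _ ≤ _ := hm _
  · refine ⟨x i, hxM i, ?_⟩
    have e : (fun j : ℕ => (H X)^[j] (x i)) = fun j : ℕ => R (Zs A j X) (F^[j] (x i)) := by
      funext j
      exact iter_crit hR (hH X) (hxc i) j
    rw [e]
    exact hXd i

end Pool.Agent.N15.AS
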